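import Pool.Agent.helper64.D2.SpecR

set_option autoImplicit false

open Filter Topology
open scoped commutatorElement

namespace Pool.Agent.helper64.D2

theorem RPF (hRCH : RCH_stmt) (hRLI : RLI_stmt) (hRNU : RNU_stmt) : RPF_stmt := by
  obtain ⟨B0, C, hC, h⟩ := hRCH
  obtain ⟨B1, hB1, hN⟩ := hRNU
  refine ⟨max B0 B1, C, hC, ?_⟩
  intro b hb R X ε hε0 hε1 hRep hSt hder
  have hb0 : B0 ≤ b := le_trans (le_max_left _ _) hb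
  have hb1 : B1 ≤ b := le_trans (le_max_right _ _) hb
  obtain ⟨R', u, v, X', hR0, hRs, hsz, htriv, hRep', hSt', hmom⟩ := h b hb0 R X ε hε0 hε1 hRep hSt hder
  refine ⟨R', u, v, X', hR0, hRs, hsz, htriv, hRep', hSt'.1, hSt'.2.1, ?_, hSt'.2.2.2⟩
  obtain ⟨-, -, -, -, -, hlast⟩ := hN b hb1
  have hlast' := hlast ε hε0 hε1
  have hb2 : (2 : ℝ) ≤ (b : ℝ) := by
    have : 2 ≤ b := le_trans hB1 hb1
    exact_mod_cast this
  have hbpos : (0 : ℝ) < (b : ℝ) := by linarith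
  have hb40 : (5 : ℝ) ≤ (b : ℝ) ^ 40 := by
    have h1 : (2 : ℝ) ^ 40 ≤ (b : ℝ) ^ 40 := pow_le_pow_left₀ (by norm_num) hb2 40
    have h2 : (5 : ℝ) ≤ (2 : ℝ) ^ 40 := by norm_num
    linarith
  have hb40pos : (0 : ℝ) < (b : ℝ) ^ 40 := by positivity
  set μ : ℝ := (2 : ℝ) ^ mm b * (1 / (8 * (b : ℝ) ^ 42)) with hμ
  set E : ℝ := (2 : ℝ) ^ mm b * (2 * (1 / (8 * (b : ℝ) ^ 42)) ^ 2 * ε ^ 2 * (b : ℝ) ^ 2 + 1 / (b : ℝ) ^ 200) with hE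
  have hμ0 : 0 ≤ μ := by rw [hμ]; positivity
  have hKK : KK X' μ ≤ Real.exp E := by
    by_cases hk : 0 ≤ KK X' μ
    · have hbb : (1 : ℝ) ≤ (b : ℝ) ^ 2 := by nlinarith
      have : KK X' μ ≤ 2 * KK X' μ * (b : ℝ) ^ 2 := by nlinarith
      linarith
    · push Not at hk
      have := Real.exp_pos E
      linarith
  refine hRLI X' (2 * ε) (2 ^ (b + 2)) μ (1 / (b : ℝ) ^ 40) hSt' (by positivity) ?_ ?_ hμ0 ?_
  · rw [div_le_div_iff₀ hb40pos (by norm_num)]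
    linarith
  · exact one_le_pow₀ (by norm_num)
  · have h2pos : (0 : ℝ) < (2 : ℝ) ^ (b + 4) * (b : ℝ) ^ 40 := by positivity
    have e1 : 4 * (2 : ℝ) ^ (b + 2) * KK X' μ / (1 / (b : ℝ) ^ 40) = (2 : ℝ) ^ (b + 4) * (b : ℝ) ^ 40 * KK X' μ := by
      rw [div_div_eq_mul_div, div_one]
      have : (2 : ℝ) ^ (b + 4) = 4 * (2 : ℝ) ^ (b + 2) := by
        rw [show b + 4 = (b + 2) + 2 by ring, pow_add]; ring
      rw [this]; ring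
    rw [e1]
    have h3 : (2 : ℝ) ^ (b + 4) * (b : ℝ) ^ 40 * KK X' μ ≤ (2 : ℝ) ^ (b + 4) * (b : ℝ) ^ 40 * Real.exp E :=
      mul_le_mul_of_nonneg_left hKK h2pos.le
    calc 2 + (2 : ℝ) ^ (b + 4) * (b : ℝ) ^ 40 * KK X' μ ≤ 2 + (2 : ℝ) ^ (b + 4) * (b : ℝ) ^ 40 * Real.exp E := by linarith
      _ < Real.exp (μ * (1 / (b : ℝ) ^ 40) / 2) := hlast'

end Pool.Agent.helper64.D2
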